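import Mathlib

/-!
# Cliques in Paley graphs: pseudo-randomness and the Erdos-Szekeres argument
-/

set_option autoImplicit false

open Finset

namespace Pool.Agent.Helper13.Paley

/-! ### The Erdos-Szekeres bound -/

/-- a set is homogeneous for the relation `r` -/
def Hom {V : Type*} (r : V → V → Prop) (S : Finset V) : Prop :=
  ∀ x ∈ S, ∀ y ∈ S, x ≠ y → r x y

lemma ramsey {V : Type*} [DecidableEq V] (r : V → V → Prop) (hr : ∀ x y, r x y → r y x) :
    ∀ (s t : ℕ) (U : Finset V), (s + t).choose s ≤ U.card →
      (∃ S ⊆ U, S.card = s + 1 ∧ Hom r S) ∨ ∃ S ⊆ U, S.card = t + 1 ∧ Hom (fun x y => ¬ r x y) S := by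
  classical
  intro s
  induction s with
  | zero =>
    intro t U h
    left
    have h1 : 1 ≤ U.card := by simpa using h
    obtain ⟨x, hx⟩ := Finset.card_pos.1 h1
    refine ⟨{x}, by simpa using hx, by simp, ?_⟩
    intro a ha b hb hab
    simp only [Finset.mem_singleton] at ha hb
    exact absurd (ha.trans hb.symm) hab
  | succ s ihs =>
    intro t
    induction t with
    | zero =>
      intro U h
      right
      have h1 : 1 ≤ U.card := by simpa using h
      obtain ⟨x, hx⟩ := Finset.card_pos.1 h1
      refine ⟨{x}, by simpa using hx, by simp, ?_⟩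
      intro a ha b hb hab
      simp only [Finset.mem_singleton] at ha hb
      exact absurd (ha.trans hb.symm) hab
    | succ t iht =>
      intro U h
      have hrec : (s + 1 + (t + 1)).choose (s + 1) =
          (s + (t + 1)).choose s + (s + 1 + t).choose (s + 1) := by
        have e1 : s + 1 + (t + 1) = (s + (t + 1)) + 1 := by ring
        have e2 : s + 1 + t = s + (t + 1) := by ring
        rw [e1, Nat.choose_succ_succ, e2]
      have h1 : 1 ≤ U.card := by
        have : 1 ≤ (s + (t + 1)).choose s := Nat.choose_pos (by omega)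
        omega
      obtain ⟨v, hv⟩ := Finset.card_pos.1 h1
      set A := (U.erase v).filter (fun x => r v x) with hA
      set B := (U.erase v).filter (fun x => ¬ r v x) with hB
      have hAB : A.card + B.card = U.card - 1 := by
        rw [hA, hB, Finset.card_filter_add_card_filter_not, Finset.card_erase_of_mem hv]
      have hAU : A ⊆ U := (Finset.filter_subset _ _).trans (Finset.erase_subset _ _)
      have hBU : B ⊆ U := (Finset.filter_subset _ _).trans (Finset.erase_subset _ _)
      have hvA : v ∉ A := by simp [hA]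
      have hvB : v ∉ B := by simp [hB]
      by_cases hcase : (s + (t + 1)).choose s ≤ A.card
      · rcases ihs (t + 1) A hcase with ⟨S, hSA, hS, hS'⟩ | ⟨S, hSA, hS, hS'⟩
        · left
          have hvS : v ∉ S := fun h => hvA (hSA h)
          refine ⟨insert v S, ?_, ?_, ?_⟩
          · intro x hx
            rcases Finset.mem_insert.1 hx with rfl | hx
            · exact hv
            · exact hAU (hSA hx)
          · rw [Finset.card_insert_of_notMem hvS, hS]
          · intro x hx y hy hxy
            rcases Finset.mem_insert.1 hx with h3 | hx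
            · rcases Finset.mem_insert.1 hy with h4 | hy
              · exact absurd (h3.trans h4.symm) hxy
              · rw [h3]
                have := hSA hy
                rw [hA, Finset.mem_filter] at this
                exact this.2
            · rcases Finset.mem_insert.1 hy with h4 | hy
              · rw [h4]
                have := hSA hx
                rw [hA, Finset.mem_filter] at this
                exact hr _ _ this.2
              · exact hS' x hx y hy hxy
        · right
          exact ⟨S, hSA.trans hAU, hS, hS'⟩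
      · have hB' : (s + 1 + t).choose (s + 1) ≤ B.card := by omega
        rcases iht B hB' with ⟨S, hSA, hS, hS'⟩ | ⟨S, hSA, hS, hS'⟩
        · left
          exact ⟨S, hSA.trans hBU, hS, hS'⟩
        · right
          have hvS : v ∉ S := fun h => hvB (hSA h)
          refine ⟨insert v S, ?_, ?_, ?_⟩
          · intro x hx
            rcases Finset.mem_insert.1 hx with rfl | hx
            · exact hv
            · exact hBU (hSA hx)
          · rw [Finset.card_insert_of_notMem hvS, hS]
          · intro x hx y hy hxy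
            rcases Finset.mem_insert.1 hx with h3 | hx
            · rcases Finset.mem_insert.1 hy with h4 | hy
              · exact absurd (h3.trans h4.symm) hxy
              · rw [h3]
                have := hSA hy
                rw [hB, Finset.mem_filter] at this
                exact this.2
            · rcases Finset.mem_insert.1 hy with h4 | hy
              · rw [h4]
                have := hSA hx
                rw [hB, Finset.mem_filter] at this
                exact fun h5 => this.2 (hr _ _ h5)
              · exact hS' x hx y hy hxy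

/-! ### Character sums -/

section
variable {p : ℕ} [Fact p.Prime]


lemma corr (hp : p ≠ 2) {u v : ZMod p} (h : u ≠ v) :
    ∑ x : ZMod p, quadraticChar (ZMod p) (u - x) * quadraticChar (ZMod p) (v - x) = -1 := by
  set χ := quadraticChar (ZMod p) with hχ
  have hchar : ringChar (ZMod p) ≠ 2 := by rwa [ZMod.ringChar_zmod_n]
  have hne : χ ≠ 1 := quadraticChar_ne_one hchar
  have hd : v - u ≠ 0 := sub_ne_zero.2 (Ne.symm h)
  have hJ := jacobiSum_nontrivial_inv hne
  have hinv : χ⁻¹ = χ := (quadraticChar_isQuadratic (F := ZMod p)).inv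
  rw [hinv] at hJ
  unfold jacobiSum at hJ
  have hsq : χ (-1) * χ (-1) = 1 := by
    rw [← map_mul]; simp
  have hbij : ∑ x : ZMod p, χ (u - x) * χ (v - x) =
      ∑ y : ZMod p, χ (-((v - u) * y)) * χ ((v - u) - (v - u) * y) := by
    refine (Fintype.sum_equiv (Equiv.mulLeft₀ (v - u) hd |>.trans (Equiv.addLeft u)) _ _ ?_).symm
    intro y
    simp only [Equiv.trans_apply, Equiv.mulLeft₀_apply, Equiv.coe_addLeft]
    congr 2 <;> ring
  rw [hbij]
  have hterm : ∀ y : ZMod p, χ (-((v - u) * y)) * χ ((v - u) - (v - u) * y) =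
      χ (-1) * (χ y * χ (1 - y)) := by
    intro y
    have e1 : -((v - u) * y) = (-1) * ((v - u) * y) := by ring
    have e2 : (v - u) - (v - u) * y = (v - u) * (1 - y) := by ring
    rw [e1, e2, map_mul, map_mul, map_mul]
    have e3 : χ (v - u) * χ (v - u) = 1 := by
      have := quadraticChar_sq_one hd
      rw [← hχ] at this
      rw [← sq]; exact this
    linear_combination (χ (-1) * χ y * χ (1 - y)) * e3
  rw [Finset.sum_congr rfl (fun y _ => hterm y), ← Finset.mul_sum, hJ]
  linear_combination (-1) * hsq

lemma sum_sq (hp : p ≠ 2) (U : Finset (ZMod p)) :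
    ∑ x : ZMod p, (∑ u ∈ U, quadraticChar (ZMod p) (u - x)) ^ 2 ≤ (p : ℤ) * U.card := by
  have h1 : ∀ x : ZMod p, (∑ u ∈ U, quadraticChar (ZMod p) (u - x)) ^ 2 =
      ∑ u ∈ U, ∑ v ∈ U, quadraticChar (ZMod p) (u - x) * quadraticChar (ZMod p) (v - x) := by
    intro x
    rw [sq, Finset.sum_mul_sum]
  rw [Finset.sum_congr rfl (fun x _ => h1 x), Finset.sum_comm]
  have h2 : ∀ u ∈ U, ∑ x : ZMod p, ∑ v ∈ U,
      quadraticChar (ZMod p) (u - x) * quadraticChar (ZMod p) (v - x) ≤ (p : ℤ) := by
    intro u hu
    rw [Finset.sum_comm, ← Finset.add_sum_erase U _ hu]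
    have h3 : ∑ v ∈ U.erase u, ∑ x : ZMod p,
        quadraticChar (ZMod p) (u - x) * quadraticChar (ZMod p) (v - x) ≤ 0 := by
      apply Finset.sum_nonpos
      intro v hv
      rw [corr hp (Ne.symm (Finset.ne_of_mem_erase hv))]
      norm_num
    have h4 : ∑ x : ZMod p, quadraticChar (ZMod p) (u - x) * quadraticChar (ZMod p) (u - x) ≤
        (p : ℤ) := by
      calc ∑ x : ZMod p, quadraticChar (ZMod p) (u - x) * quadraticChar (ZMod p) (u - x)
          ≤ ∑ x : ZMod p, (1 : ℤ) := by
            apply Finset.sum_le_sum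
            intro x _
            by_cases hx : u - x = 0
            · rw [hx]; simp
            · have := quadraticChar_sq_one hx
              rw [sq] at this
              rw [this]
        _ = (p : ℤ) := by simp [ZMod.card]
    linarith
  calc ∑ u ∈ U, ∑ x : ZMod p, ∑ v ∈ U,
        quadraticChar (ZMod p) (u - x) * quadraticChar (ZMod p) (v - x)
      ≤ ∑ u ∈ U, (p : ℤ) := Finset.sum_le_sum h2
    _ = (p : ℤ) * U.card := by rw [Finset.sum_const, nsmul_eq_mul]; ring

lemma mixing (hp : p ≠ 2) (U : Finset (ZMod p)) :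
    -(Real.sqrt p * U.card) ≤
      ((∑ x ∈ U, ∑ u ∈ U, quadraticChar (ZMod p) (u - x) : ℤ) : ℝ) := by
  set f : ZMod p → ℤ := fun x => ∑ u ∈ U, quadraticChar (ZMod p) (u - x) with hf
  have h1 : (∑ x ∈ U, f x) ^ 2 ≤ (U.card : ℤ) * ∑ x ∈ U, (f x) ^ 2 := sq_sum_le_card_mul_sum_sq
  have h2 : ∑ x ∈ U, (f x) ^ 2 ≤ (p : ℤ) * U.card := by
    refine le_trans ?_ (sum_sq hp U)
    exact Finset.sum_le_sum_of_subset_of_nonneg (Finset.subset_univ U)
      (fun x _ _ => sq_nonneg _)
  have h3 : (∑ x ∈ U, f x) ^ 2 ≤ (p : ℤ) * (U.card : ℤ) ^ 2 := by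
    calc (∑ x ∈ U, f x) ^ 2 ≤ (U.card : ℤ) * ∑ x ∈ U, (f x) ^ 2 := h1
      _ ≤ (U.card : ℤ) * ((p : ℤ) * U.card) := by
          apply mul_le_mul_of_nonneg_left h2; positivity
      _ = (p : ℤ) * (U.card : ℤ) ^ 2 := by ring
  have h4 : (((∑ x ∈ U, f x : ℤ) : ℝ)) ^ 2 ≤ (Real.sqrt p * U.card) ^ 2 := by
    rw [mul_pow, Real.sq_sqrt (by positivity)]
    exact_mod_cast h3
  exact (abs_le_of_sq_le_sq' h4 (by positivity)).1

/-- the step of the greedy construction -/
lemma step (hp : p ≠ 2) (U : Finset (ZMod p)) (hU : U.Nonempty) :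
    ∃ v ∈ U, ((U.card : ℝ) - 1 - Real.sqrt p) / 2 ≤
      ((U.filter (fun u => quadraticChar (ZMod p) (u - v) = 1)).card : ℝ) := by
  have hmix := mixing hp U
  have hex : ∃ v ∈ U, -Real.sqrt p ≤ ((∑ u ∈ U, quadraticChar (ZMod p) (u - v) : ℤ) : ℝ) := by
    by_contra hcon
    push Not at hcon
    have hlt : ((∑ x ∈ U, ∑ u ∈ U, quadraticChar (ZMod p) (u - x) : ℤ) : ℝ) <
        ∑ x ∈ U, (-Real.sqrt p) := by
      push_cast
      apply Finset.sum_lt_sum_of_nonempty hU
      intro x hx
      have := hcon x hx
      push_cast at this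
      exact this
    rw [Finset.sum_const, nsmul_eq_mul] at hlt
    nlinarith
  obtain ⟨v, hv, h⟩ := hex
  refine ⟨v, hv, ?_⟩
  have h1 : ∀ u ∈ U, quadraticChar (ZMod p) (u - v) =
      2 * (if quadraticChar (ZMod p) (u - v) = 1 then 1 else 0) - 1 +
        (if u = v then 1 else 0) := by
    intro u _
    by_cases huv : u = v
    · subst huv
      simp
    · have h2 : u - v ≠ 0 := sub_ne_zero.2 huv
      rcases quadraticChar_dichotomy h2 with h3 | h3
      · rw [h3]; simp [huv]
      · rw [h3]; simp [huv]
  have h2 : ∑ u ∈ U, quadraticChar (ZMod p) (u - v) =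
      2 * ((U.filter (fun u => quadraticChar (ZMod p) (u - v) = 1)).card : ℤ) - U.card + 1 := by
    rw [Finset.sum_congr rfl h1, Finset.sum_add_distrib, Finset.sum_sub_distrib, ← Finset.mul_sum,
      Finset.sum_ite_eq' U v, if_pos hv]
    simp
  rw [h2] at h
  push_cast at h
  linarith

/-- adjacency in the Paley graph -/
def Adj (x y : ZMod p) : Prop := x ≠ y ∧ IsSquare (x - y)

lemma sq_neg (hp : p % 4 = 1) {x : ZMod p} (h : IsSquare x) : IsSquare (-x) := by
  have h1 : IsSquare (-1 : ZMod p) := by
    rw [ZMod.exists_sq_eq_neg_one_iff]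
    omega
  have := h1.mul h
  rwa [neg_one_mul] at this

lemma adj_symm (hp : p % 4 = 1) (x y : ZMod p) (h : Adj x y) : Adj y x := by
  refine ⟨h.1.symm, ?_⟩
  have := sq_neg hp h.2
  rwa [neg_sub] at this

lemma adj_of_char {x y : ZMod p} (h : quadraticChar (ZMod p) (x - y) = 1) : Adj x y := by
  have h0 : x - y ≠ 0 := by
    intro h0
    rw [h0] at h
    simp at h
  exact ⟨sub_ne_zero.1 h0, (quadraticChar_one_iff_isSquare h0).1 h⟩

/-- cliques with a large common neighbourhood -/
lemma greedy (hp : p % 4 = 1) : ∀ k : ℕ, 2 ^ k * (Real.sqrt p + 1) < p + Real.sqrt p + 1 →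
    ∃ A U : Finset (ZMod p), A.card = k ∧ Hom Adj A ∧ (∀ a ∈ A, ∀ u ∈ U, Adj a u) ∧
      ((p : ℝ) + Real.sqrt p + 1) / 2 ^ k - (Real.sqrt p + 1) ≤ U.card := by
  have hp2 : p ≠ 2 := by rintro rfl; norm_num at hp
  intro k
  induction k with
  | zero =>
    intro _
    refine ⟨∅, Finset.univ, rfl, ?_, ?_, ?_⟩
    · intro x hx; simp at hx
    · intro x hx; simp at hx
    · rw [Finset.card_univ, ZMod.card]; simp
  | succ k ih =>
    intro hk
    have hs : 0 ≤ Real.sqrt p := Real.sqrt_nonneg _
    have hk' : 2 ^ k * (Real.sqrt p + 1) < p + Real.sqrt p + 1 := by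
      refine lt_of_le_of_lt ?_ hk
      apply mul_le_mul_of_nonneg_right _ (by positivity)
      exact pow_le_pow_right₀ (by norm_num) (Nat.le_succ k)
    obtain ⟨A, U, hA, hA1, hAU, hU⟩ := ih hk'
    have hpos : (0 : ℝ) < U.card := by
      refine lt_of_lt_of_le ?_ hU
      rw [sub_pos, lt_div_iff₀ (by positivity)]
      linarith
    have hne : U.Nonempty := by
      rw [← Finset.card_pos]
      exact_mod_cast hpos
    obtain ⟨v, hv, hcard⟩ := step hp2 U hne
    have hvA : v ∉ A := fun h => (hAU v h v hv).1 rfl
    refine ⟨insert v A, U.filter (fun u => quadraticChar (ZMod p) (u - v) = 1), ?_, ?_, ?_, ?_⟩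
    · rw [Finset.card_insert_of_notMem hvA, hA]
    · intro x hx y hy hxy
      rcases Finset.mem_insert.1 hx with h3 | hx
      · rcases Finset.mem_insert.1 hy with h4 | hy
        · exact absurd (h3.trans h4.symm) hxy
        · rw [h3]
          exact adj_symm hp _ _ (hAU y hy v hv)
      · rcases Finset.mem_insert.1 hy with h4 | hy
        · rw [h4]
          exact hAU x hx v hv
        · exact hA1 x hx y hy hxy
    · intro a ha u hu
      rw [Finset.mem_filter] at hu
      rcases Finset.mem_insert.1 ha with h3 | ha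
      · rw [h3]
        exact adj_symm hp _ _ (adj_of_char hu.2)
      · exact hAU a ha u hu.1
    · refine le_trans ?_ hcard
      have e : ((p : ℝ) + Real.sqrt p + 1) / 2 ^ (k + 1) =
          (((p : ℝ) + Real.sqrt p + 1) / 2 ^ k) / 2 := by
        rw [pow_succ, div_div]
      rw [e]
      linarith

/-- the main inequality: if all cliques have at most `w` elements -/
lemma main_ineq (hp : p % 4 = 1) (w : ℕ)
    (hw : ∀ S : Finset (ZMod p), Hom Adj S → S.card ≤ w) (k : ℕ)
    (hk : 2 ^ k * (Real.sqrt p + 1) < p + Real.sqrt p + 1) :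
    k < w ∧ ((p : ℝ) + Real.sqrt p + 1) / 2 ^ k - (Real.sqrt p + 1) < ((w - k + w).choose (w - k) : ℕ) := by
  have hp2 : p ≠ 2 := by rintro rfl; norm_num at hp
  obtain ⟨A, U, hA, hA1, hAU, hU⟩ := greedy hp k hk
  have hpos : (0 : ℝ) < U.card := by
    refine lt_of_lt_of_le ?_ hU
    rw [sub_pos, lt_div_iff₀ (by positivity)]
    linarith
  -- adding a clique of the common neighbourhood
  have hadd : ∀ S ⊆ U, Hom Adj S → k + S.card ≤ w := by
    intro S hS hS'
    have hdisj : Disjoint A S := by
      rw [Finset.disjoint_left]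
      intro a ha ha'
      exact (hAU a ha a (hS ha')).1 rfl
    have h1 : (A ∪ S).card = k + S.card := by
      rw [Finset.card_union_of_disjoint hdisj, hA]
    rw [← h1]
    apply hw
    intro x hx y hy hxy
    rcases Finset.mem_union.1 hx with hx | hx
    · rcases Finset.mem_union.1 hy with hy | hy
      · exact hA1 x hx y hy hxy
      · exact hAU x hx y (hS hy)
    · rcases Finset.mem_union.1 hy with hy | hy
      · exact adj_symm hp _ _ (hAU y hy x (hS hx))
      · exact hS' x hx y hy hxy
  have hkw : k < w := by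
    have hne : U.Nonempty := by
      rw [← Finset.card_pos]
      exact_mod_cast hpos
    obtain ⟨v, hv⟩ := hne
    have := hadd {v} (by simpa using hv) (by
      intro x hx y hy hxy
      simp only [Finset.mem_singleton] at hx hy
      exact absurd (hx.trans hy.symm) hxy)
    simpa using this
  refine ⟨hkw, lt_of_le_of_lt hU ?_⟩
  by_contra hcon
  push Not at hcon
  have hcon' : (w - k + w).choose (w - k) ≤ U.card := by exact_mod_cast hcon
  rcases ramsey Adj (adj_symm hp) (w - k) w U hcon' with ⟨S, hSU, hS, hS'⟩ | ⟨S, hSU, hS, hS'⟩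
  · have := hadd S hSU hS'
    omega
  · -- an independent set multiplied by a non-residue
    obtain ⟨g, hg⟩ := quadraticChar_exists_neg_one (F := ZMod p)
      (by rwa [ZMod.ringChar_zmod_n])
    have hg0 : g ≠ 0 := by
      intro h
      rw [h] at hg
      simp at hg
    have hinj : Function.Injective (fun x : ZMod p => g * x) := mul_right_injective₀ hg0
    have h1 := hw (S.image (fun x => g * x)) (by
      intro x hx y hy hxy
      rw [Finset.mem_image] at hx hy
      obtain ⟨a, ha, rfl⟩ := hx
      obtain ⟨b, hb, rfl⟩ := hy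
      have hab : a ≠ b := fun h => hxy (by rw [h])
      have h2 := hS' a ha b hb hab
      have hab0 : a - b ≠ 0 := sub_ne_zero.2 hab
      have h3 : quadraticChar (ZMod p) (a - b) = -1 := by
        rw [quadraticChar_neg_one_iff_not_isSquare]
        intro h4
        exact h2 ⟨hab, h4⟩
      apply adj_of_char
      rw [← mul_sub, map_mul, hg, h3]
      norm_num)
    rw [Finset.card_image_of_injective _ hinj, hS] at h1
    omega

end

end Pool.Agent.Helper13.Paley
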