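import Pool.Agent.Helper13.Paley

/-!
# Squares modulo prime powers, and the asymptotic estimate
-/

set_option autoImplicit false

open Finset

namespace Pool.Agent.Helper13.Paley

lemma sq_of {R : Type*} [CommRing R] {p k j : ℕ} (h0 : (p : R) ^ (k + 1) = 0)
    (hj : p ^ k = 2 * j + 1) (u : Rˣ) (v : R) (h : (p : R) ∣ (u : R) - v ^ 2) :
    IsSquare (u : R) := by
  have h3 := dvd_sub_pow_of_dvd_sub h k
  rw [h0, zero_dvd_iff, sub_eq_zero] at h3
  refine ⟨v ^ (p ^ k) * ((u⁻¹ : Rˣ) : R) ^ j, ?_⟩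
  have h5 : (u : R) ^ (p ^ k) = (u : R) ^ (2 * j) * u := by rw [hj, pow_succ]
  have h6 : ((u⁻¹ : Rˣ) : R) ^ j * ((u⁻¹ : Rˣ) : R) ^ j * (u : R) ^ (2 * j) = 1 := by
    rw [← pow_add, ← two_mul, ← mul_pow, Units.inv_mul, one_pow]
  calc (u : R) = (((u⁻¹ : Rˣ) : R) ^ j * ((u⁻¹ : Rˣ) : R) ^ j * (u : R) ^ (2 * j)) * u := by
        rw [h6, one_mul]
    _ = (((u⁻¹ : Rˣ) : R) ^ j * ((u⁻¹ : Rˣ) : R) ^ j) * ((u : R) ^ (p ^ k)) := by
        rw [h5]; ring
    _ = (((u⁻¹ : Rˣ) : R) ^ j * ((u⁻¹ : Rˣ) : R) ^ j) * ((v ^ 2) ^ (p ^ k)) := by rw [h3]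
    _ = _ := by ring

/-- a square modulo `p` prime to `p` is a square modulo `p ^ n` -/
lemma lift_sq {p : ℕ} (hp : p.Prime) (hp2 : p ≠ 2) {n : ℕ} (hn : 1 ≤ n) (m : ℤ)
    (h1 : IsUnit (m : ZMod p)) (h2 : IsSquare (m : ZMod p)) :
    IsUnit (m : ZMod (p ^ n)) ∧ IsSquare (m : ZMod (p ^ n)) := by
  have hfact : Fact p.Prime := ⟨hp⟩
  obtain ⟨k, rfl⟩ : ∃ k, n = k + 1 := ⟨n - 1, by omega⟩
  have hco : IsCoprime m (p : ℤ) := by
    have := (ZMod.coe_int_isUnit_iff_isCoprime m p).1 h1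
    exact this.symm
  have hu : IsUnit (m : ZMod (p ^ (k + 1))) := by
    rw [ZMod.coe_int_isUnit_iff_isCoprime]
    push_cast
    exact (hco.pow_right (n := k + 1)).symm
  refine ⟨hu, ?_⟩
  obtain ⟨x, hx⟩ := h2
  obtain ⟨z, rfl⟩ : ∃ z : ℤ, (z : ZMod p) = x := ⟨x.val, by simp⟩
  have hdvd : (p : ℤ) ∣ m - z ^ 2 := by
    rw [← ZMod.intCast_zmod_eq_zero_iff_dvd] 
    push_cast
    rw [hx]
    ring
  have hdvd' : (p : ZMod (p ^ (k + 1))) ∣
      (m : ZMod (p ^ (k + 1))) - (z : ZMod (p ^ (k + 1))) ^ 2 := by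
    have := (Int.castRingHom (ZMod (p ^ (k + 1)))).map_dvd hdvd
    simpa using this
  have h4 : ((p : ZMod (p ^ (k + 1))) ^ (k + 1)) = 0 := by
    have : ((p ^ (k + 1) : ℕ) : ZMod (p ^ (k + 1))) = 0 := ZMod.natCast_self _
    rwa [Nat.cast_pow] at this
  have hodd : Odd (p ^ k) := (hp.odd_of_ne_two hp2).pow
  obtain ⟨j, hj⟩ := hodd
  obtain ⟨u, hu⟩ := hu
  rw [← hu] at hdvd' ⊢
  exact sq_of h4 hj u _ hdvd'

/-- bound for binomial coefficients -/
lemma choose_le (n m : ℕ) (hm : m ≤ n) : ((n.choose m : ℕ) : ℝ) ≤ (6 / 5 : ℝ) ^ n * 5 ^ m := by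
  have h1 : (1 / 5 : ℝ) ^ m * (n.choose m : ℝ) ≤ (1 / 5 + 1 : ℝ) ^ n := by
    rw [add_pow]
    have h2 : (1 / 5 : ℝ) ^ m * (n.choose m : ℝ) =
        (1 / 5 : ℝ) ^ m * 1 ^ (n - m) * (n.choose m : ℝ) := by rw [one_pow, mul_one]
    rw [h2]
    exact Finset.single_le_sum (f := fun m => (1 / 5 : ℝ) ^ m * 1 ^ (n - m) * (n.choose m : ℝ))
      (fun i _ => by positivity) (Finset.mem_range.2 (by omega))
  have h3 : (1 / 5 + 1 : ℝ) = 6 / 5 := by norm_num
  rw [h3] at h1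
  have h4 : (1 / 5 : ℝ) ^ m * 5 ^ m = 1 := by rw [← mul_pow]; norm_num
  calc ((n.choose m : ℕ) : ℝ) = ((1 / 5 : ℝ) ^ m * (n.choose m : ℝ)) * 5 ^ m := by
        rw [mul_right_comm, h4, one_mul]
    _ ≤ _ := by
        apply mul_le_mul_of_nonneg_right h1; positivity

set_option exponentiation.threshold 10000 in
lemma log_ineq : 0.758 * Real.log (6 / 5) + 0.129 * Real.log 5 ≤ 0.499 * Real.log 2 := by
  have h : ((6 / 5 : ℝ) ^ 758 * 5 ^ 129) ≤ 2 ^ 499 := by norm_num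
  have h1 := Real.log_le_log (by positivity) h
  rw [Real.log_mul (by positivity) (by positivity), Real.log_pow, Real.log_pow, Real.log_pow] at h1
  push_cast at h1
  linarith

/-- the asymptotic form of the inequality -/
lemma asym (p w : ℕ) (hp : (0 : ℝ) < p) (hL0 : 9000 ≤ Real.log p / Real.log 2)
    (hineq : ∀ k : ℕ, 2 ^ k * (Real.sqrt p + 1) < (p : ℝ) + Real.sqrt p + 1 →
      k < w ∧ ((p : ℝ) + Real.sqrt p + 1) / 2 ^ k - (Real.sqrt p + 1) <
        ((w - k + w).choose (w - k) : ℕ)) :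
    0.629 * (Real.log p / Real.log 2) + 1 ≤ w := by
  have hlog2 : 0 < Real.log 2 := Real.log_pos (by norm_num)
  set L : ℝ := Real.log p / Real.log 2 with hL
  have hlogp : Real.log p = L * Real.log 2 := by rw [hL]; field_simp
  set s : ℝ := Real.sqrt p with hs
  have hs0 : 0 < s := Real.sqrt_pos.2 hp
  have hss : s * s = p := Real.mul_self_sqrt hp.le
  have hlogs : Real.log s = L / 2 * Real.log 2 := by
    rw [hs, Real.log_sqrt hp.le, hlogp]; ring
  -- the choice of `k`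
  obtain ⟨K, hK⟩ : ∃ K : ℕ, K = ⌊L / 2⌋₊ := ⟨_, rfl⟩
  have hK1 : (K : ℝ) ≤ L / 2 := by rw [hK]; exact Nat.floor_le (by linarith)
  have hK2 : L / 2 < K + 1 := by rw [hK]; exact Nat.lt_floor_add_one _
  have hK3 : 4500 ≤ K := by
    rw [hK]; apply Nat.le_floor; push_cast; linarith
  obtain ⟨k, rfl⟩ : ∃ k, K = k + 1 := ⟨K - 1, by omega⟩
  push_cast at hK1 hK2
  have h2k : (2 : ℝ) ^ (k + 1) ≤ s := by
    rw [← Real.log_le_log_iff (by positivity) hs0, Real.log_pow, hlogs]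
    push_cast
    exact mul_le_mul_of_nonneg_right hK1 hlog2.le
  rw [pow_succ] at h2k
  have h2kpos : (0 : ℝ) < 2 ^ k := by positivity
  have hcond : 2 ^ k * (s + 1) < (p : ℝ) + s + 1 := by
    rw [← hss]
    have e1 := mul_le_mul_of_nonneg_right h2k (by linarith : 0 ≤ s + 1)
    have e2 := mul_pos hs0 hs0
    clear hK3
    linarith
  obtain ⟨hkw, hlt⟩ := hineq k hcond
  have hlow : s ≤ ((p : ℝ) + s + 1) / 2 ^ k - (s + 1) := by
    rw [le_sub_iff_add_le, le_div_iff₀ h2kpos, ← hss]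
    have e1 := mul_le_mul_of_nonneg_right h2k (by linarith : 0 ≤ s + s + 1)
    have e2 := mul_pos hs0 hs0
    clear hK3
    linarith
  by_contra hcon
  push Not at hcon
  have hbin := choose_le (w - k + w) (w - k) (by omega)
  have h7 : s < (6 / 5 : ℝ) ^ (w - k + w) * 5 ^ (w - k) := lt_of_le_of_lt hlow (hlt.trans_le hbin)
  have h8 := Real.log_lt_log hs0 h7
  rw [Real.log_mul (by positivity) (by positivity), Real.log_pow, Real.log_pow, hlogs] at h8
  have hwk : ((w - k : ℕ) : ℝ) = w - k := by push_cast [hkw.le]; ring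
  have hwk2 : ((w - k + w : ℕ) : ℝ) = 2 * w - k := by push_cast [hkw.le]; ring
  rw [hwk, hwk2] at h8
  have hl65 : 0 < Real.log (6 / 5) := Real.log_pos (by norm_num)
  have hl5 : 0 < Real.log 5 := Real.log_pos (by norm_num)
  have e1 : (2 * (w : ℝ) - k) ≤ 0.758 * L + 4 := by linarith
  have e2 : ((w : ℝ) - k) ≤ 0.129 * L + 3 := by linarith
  have h9 : (2 * (w : ℝ) - k) * Real.log (6 / 5) ≤ (0.758 * L + 4) * Real.log (6 / 5) :=
    mul_le_mul_of_nonneg_right e1 hl65.le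
  have h10 : ((w : ℝ) - k) * Real.log 5 ≤ (0.129 * L + 3) * Real.log 5 :=
    mul_le_mul_of_nonneg_right e2 hl5.le
  have h11 := log_ineq
  have h12 : 4 * Real.log (6 / 5) + 3 * Real.log 5 ≤ 9 * Real.log 2 := by
    have h : ((6 / 5 : ℝ) ^ 4 * 5 ^ 3) ≤ 2 ^ 9 := by norm_num
    have h1 := Real.log_le_log (by positivity) h
    rw [Real.log_mul (by positivity) (by positivity), Real.log_pow, Real.log_pow,
      Real.log_pow] at h1
    push_cast at h1
    linarith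
  have h13 : L * (0.758 * Real.log (6 / 5) + 0.129 * Real.log 5) ≤ L * (0.499 * Real.log 2) :=
    mul_le_mul_of_nonneg_left h11 (by linarith)
  have h14 : 9000 * (0.001 * Real.log 2) ≤ L * (0.001 * Real.log 2) :=
    mul_le_mul_of_nonneg_right hL0 (by positivity)
  linarith

end Pool.Agent.Helper13.Paley
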